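import Pool.Agent.H37.CNS.Stmts
import Pool.Agent.H37.CNY.Stmts

/-!
# Denominators of conductors: `p`-groups, `p` odd, in which all elements of order `p` are central: statements
of the rows of the board `cnk`

Row `XXX` is a theorem `xxx_thm (h1 : S_AAA) ... : S_XXX` in `Pool/Agent/H<k>/CNK/XXX.lean`, importing this
file, namespace `Pool.CND`.

Target (`PCN`): for `p` odd, `N_G = 1` for a `p`-group `G` if and only if all elements of order `p` are central.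

Plan.  `Δ` = the derivation `t d/dt` of `L`; it commutes with `G`.  `b g = P.b (ρ g)`, `S(M) = ∑_{g ∉ M} b g` (`So`).  For `x` in `L^M`, `M` normal:
`ord (Δ x) ≥ ord x - S(M)`, with equality if `ord x / |M|` is prime to `p` (`DVV`).  If `F` in `L^M` has `ord (g F - F) ≥ B` for all `g` then there is `F₀` in `k(t)`
with `ord (F - F₀) ≥ B - S(M)` (`AVG`).  Apply this to `Δ Y`, `z Y = Y + 1` (`ITG`), and, in `L^N`, to `F = τ ^ (p - 1) Δ τ + Δ g₁` where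
`Y ^ p - Y = wc y τ + ∑ B_ij y_i τ_j + g₁` (`ME1`-`ME3`).
-/

set_option autoImplicit false

namespace Pool.CND

open Finset

/-- `Δ` is a derivation of `L` over `k` with `Δ t = t` -/
structure DD (k : Type) {L : Type} [Field k] [Field L] [Algebra k L] (t : L) (Δ : L → L) :
    Prop where
  add : ∀ x y : L, Δ (x + y) = Δ x + Δ y
  mul : ∀ x y : L, Δ (x * y) = x * Δ y + y * Δ x
  con : ∀ c : k, Δ (algebraMap k L c) = 0
  self : Δ t = t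

/-- `S(M)` -/
noncomputable def So {k L G : Type} [Field k] [Field L] [Algebra k L] [Group G] [Fintype G]
    (P : Place k L) (ρ : G →* (L ≃ₐ[k] L)) (M : Subgroup G) : ℤ :=
  sm (fun g => P.b (ρ g)) {g | g ∉ M}

/-- a cover of a `p`-group and a place over infinity -/
structure PCv (p : ℕ) {k L G : Type} [Field k] [Field L] [Algebra k L] [Group G]
    (ρ : G →* (L ≃ₐ[k] L)) (t : L) (P : Place k L) : Prop where
  pr : p.Prime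
  ch : CharP k p
  cd : ∃ n : ℕ, Nat.card G = p ^ n
  cov : IsCover ρ t
  inf : P.ord t < 0

/-- `(a ^ p + b ^ p - (a + b) ^ p) / p` -/
def wc (p : ℕ) {L : Type} [Field L] (a b : L) : L :=
  -∑ i ∈ Ico 1 p, ((p.choose i / p : ℕ) : L) * a ^ i * b ^ (p - i)

/-! ## General facts -/

/-- BAS: from `PTR`, `INF`, `UMW`, `SUB` (or `TOT`, `RMX` for `ord t`) -/
def S_BAS : Prop := ∀ (p : ℕ) (k L G : Type) [Field k] [IsAlgClosed k] [Field L] [Algebra k L]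
  [Group G] [Fintype G] (ρ : G →* (L ≃ₐ[k] L)) (t : L) (P : Place k L), PCv p ρ t P →
  ram P ρ 1 = Set.univ ∧ (∀ g : G, Fixes P (ρ g)) ∧ P.ord t = -(Nat.card G : ℤ) ∧
  UM (fun g => P.b (ρ g)) (⊤ : Subgroup G) ∧ Function.Injective ρ

/-- QSM: the quotient by a normal subgroup: `QU1`, `FXP` (place), `RST`, `HER`, `ART` -/
def S_QSM : Prop := ∀ (p : ℕ) (k L G : Type) [Field k] [IsAlgClosed k] [Field L] [Algebra k L]
  [Group G] [Fintype G] (ρ : G →* (L ≃ₐ[k] L)) (t : L) (P : Place k L) (M : Subgroup G) [M.Normal],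
  PCv p ρ t P → ∃ (E : IntermediateField k L) (ρ' : G ⧸ M →* (E ≃ₐ[k] E)) (t' : E)
    (Q : Place k E), (∀ v : L, v ∈ E ↔ ∀ m ∈ M, ρ m v = v) ∧ (t' : L) = t ∧
    (∀ (g : G) (v : E), ((ρ' (g : G ⧸ M) v : E) : L) = ρ g v) ∧ PCv p ρ' t' Q ∧
    (∀ v : E, v ≠ 0 → (Nat.card M : ℤ) * Q.ord v = P.ord (v : L)) ∧
    ∀ g : G, g ∉ M → sm (fun g => P.b (ρ g)) {y | g⁻¹ * y ∈ M} =
      Nat.card M * Q.b (ρ' (g : G ⧸ M))

/-- LPO: `g ^ p - 1 = (g - 1) ^ p`, `LON` -/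
def S_LPO : Prop := ∀ (p : ℕ) (k L G : Type) [Field k] [IsAlgClosed k] [Field L] [Algebra k L]
  [Group G] [Fintype G] (ρ : G →* (L ≃ₐ[k] L)) (t : L) (P : Place k L), PCv p ρ t P →
  ∀ g : G, g ≠ 1 → g ^ p = 1 ∨ P.b (ρ g) < P.b (ρ (g ^ p))

/-! ## The derivation -/

/-- DRU: uniqueness.  `D` is `0` on `k(t)`, and `f'(x) D x = 0` for the minimal polynomial `f` of `x` over `k(t)` (separable: Artin) -/
def S_DRU : Prop := ∀ (k L G : Type) [Field k] [Field L] [Algebra k L] [Group G] [Finite G]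
  (ρ : G →* (L ≃ₐ[k] L)) (t : L) (D : L → L), IsCover ρ t → (∀ x y : L, D (x + y) = D x + D y) →
  (∀ x y : L, D (x * y) = x * D y + y * D x) → (∀ c : k, D (algebraMap k L c) = 0) → D t = 0 →
  ∀ x : L, D x = 0

/-- DRV: existence (`L` is a finite separable extension of `k(t)`, so formally étale; or `L = k(t)[α]`, `Δ α = - f^Δ(α) / f'(α)`);
commutes with `G` by uniqueness (`DRU` for `x ↦ g⁻¹ (Δ (g x)) - Δ x`) -/
def S_DRV : Prop := ∀ (k L G : Type) [Field k] [Field L] [Algebra k L] [Group G] [Finite G]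
  (ρ : G →* (L ≃ₐ[k] L)) (t : L), IsCover ρ t →
  ∃ Δ : L → L, DD k t Δ ∧ ∀ (g : G) (x : L), Δ (ρ g x) = ρ g (Δ x)

/-- DRP: `Δ ^ p` is a derivation (Leibniz), `DRU` for `Δ ^ p - Δ` -/
def S_DRP : Prop := ∀ (p : ℕ) (k L G : Type) [Field k] [Field L] [Algebra k L] [Group G] [Finite G]
  (ρ : G →* (L ≃ₐ[k] L)) (t : L) (Δ : L → L), p.Prime → CharP k p → IsCover ρ t → DD k t Δ →
  ∀ x : L, Δ^[p] x = Δ x

/-- DRH: Hochschild's formula.  `Λ x = x - Δ ^ (p - 1) x`; `Λ Δ = 0`.  `T(x) = Λ(x ^ (p - 1) Δ x) - (Δ x) ^ p` is additive: `(x + y) ^ (p - 1) Δ(x + y) = x ^ (p - 1) Δ x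
+ y ^ (p - 1) Δ y - Δ(wc x y)`; `T(a x) = a ^ p T(x)` if `Δ a = 0`; `T(t ^ i) = i Λ(t ^ (i p)) - (i t ^ i) ^ p = 0`.  `L` is the sum of the `{Δ a = 0} t ^ i`, `0 ≤ i < p`:
the eigenspaces of `Δ`, since `∏_i (Δ - i) = Δ ^ p - Δ = 0` -/
def S_DRH : Prop := ∀ (p : ℕ) (L : Type) [Field L] (t : L) (Δ : L → L), p.Prime → CharP L p →
  t ≠ 0 → (∀ x y : L, Δ (x + y) = Δ x + Δ y) → (∀ x y : L, Δ (x * y) = x * Δ y + y * Δ x) →
  Δ t = t → (∀ x : L, Δ^[p] x = Δ x) →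
  ∀ x : L, x ^ (p - 1) * Δ x - Δ^[p - 1] (x ^ (p - 1) * Δ x) = (Δ x) ^ p

/-! ## Orders -/

/-- DKK: `x` in `k(t)`, `ord t = - e`: `x = f(t) / g(t)`, `Δ (f(t)) = t f'(t)` -/
def S_DKK : Prop := ∀ (p e : ℕ) (k L : Type) [Field k] [Field L] [Algebra k L] (P : Place k L)
  (t : L) (Δ : L → L), p.Prime → CharP k p → 1 ≤ e → P.ord t = -(e : ℤ) → DD k t Δ →
  ∀ x ∈ IntermediateField.adjoin k {t}, x ≠ 0 → ∃ m : ℤ, P.ord x = e * m ∧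
    P.Ge (Δ x) (P.ord x) ∧ (¬ (p : ℤ) ∣ m → Δ x ≠ 0 ∧ P.ord (Δ x) = P.ord x)

/-- DVA: `α` with `ord α = |M|` (`RMX`), `f = ∏_{σ ∈ G / M} (X - σ α)`, `e = |G / M|`, coefficients `a_i` in `k(t)`, `ord a_i ≥ |G|` for `i < e`, `ord a_0 = |G|`: by `DKK`
`ord ∑ Δ(a_i) α ^ i = |G|`; `f'(α) = ∏_{σ ≠ 1} (α - σ α)` has order `(e - 1) |M| + S(M)` (`QSM`: `ord (α - σ α) = |M| (1 + Q.b σ)`, `LO2` or `LON`); `Δ α = - (∑ Δ(a_i) α ^ i) / f'(α)` -/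
def S_DVA : Prop := ∀ (p : ℕ) (k L G : Type) [Field k] [IsAlgClosed k] [Field L] [Algebra k L]
  [Group G] [Fintype G] (ρ : G →* (L ≃ₐ[k] L)) (t : L) (P : Place k L) (Δ : L → L)
  (M : Subgroup G), PCv p ρ t P → DD k t Δ → (∀ (g : G) (x : L), Δ (ρ g x) = ρ g (Δ x)) →
  M.Normal → M ≠ ⊤ → ∃ α : L, α ≠ 0 ∧ (∀ m ∈ M, ρ m α = α) ∧ P.ord α = Nat.card M ∧ Δ α ≠ 0 ∧
    P.ord (Δ α) = Nat.card M - So P ρ M

/-- DVB: `1, α, ..., α ^ (e - 1)`, `e = |G / M|`, are independent over `k(t)` (orders modulo `|G|`), and `[L^M : k(t)] = e` -/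
def S_DVB : Prop := ∀ (p : ℕ) (k L G : Type) [Field k] [IsAlgClosed k] [Field L] [Algebra k L]
  [Group G] [Fintype G] (ρ : G →* (L ≃ₐ[k] L)) (t : L) (P : Place k L) (M : Subgroup G) (α : L),
  PCv p ρ t P → M.Normal → α ≠ 0 → (∀ m ∈ M, ρ m α = α) → P.ord α = Nat.card M →
  ∀ x : L, (∀ m ∈ M, ρ m x = x) → ∃ r : ℕ → L, (∀ i, r i ∈ IntermediateField.adjoin k {t}) ∧
    x = ∑ i ∈ range M.index, r i * α ^ i

/-- DVV: `M = ⊤`: `DKK`.  Otherwise `α` from `DVA`, `x = ∑ r_i α ^ i` (`DVB`), the orders `ord (r_i α ^ i) = |G| m_i + i |M|` are distinct, so `ord x` is the least;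
`Δ (r_i α ^ i) = Δ(r_i) α ^ i + i r_i α ^ (i - 1) Δ α`; `S(M) > 0` -/
def S_DVV : Prop := ∀ (p : ℕ) (k L G : Type) [Field k] [IsAlgClosed k] [Field L] [Algebra k L]
  [Group G] [Fintype G] (ρ : G →* (L ≃ₐ[k] L)) (t : L) (P : Place k L) (Δ : L → L)
  (M : Subgroup G), PCv p ρ t P → DD k t Δ → (∀ (g : G) (x : L), Δ (ρ g x) = ρ g (Δ x)) →
  M.Normal → ∀ x : L, x ≠ 0 → (∀ m ∈ M, ρ m x = x) → ∃ m : ℤ, P.ord x = Nat.card M * m ∧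
    P.Ge (Δ x) (P.ord x - So P ρ M) ∧
    (¬ (p : ℤ) ∣ m → Δ x ≠ 0 ∧ P.ord (Δ x) = P.ord x - So P ρ M)

/-- THT: `θ = α ^ (e - 1) / ∏_{σ ≠ 1} (α - σ α)`, `α` in `L^M` with `ord α = |M|` (`RMX`); the sum of the conjugates is `1` (Lagrange interpolation of `X ^ (e - 1)`); the order of
`α - σ α` as in `DVA` -/
def S_THT : Prop := ∀ (p : ℕ) (k L G : Type) [Field k] [IsAlgClosed k] [Field L] [Algebra k L]
  [Group G] [Fintype G] (ρ : G →* (L ≃ₐ[k] L)) (t : L) (P : Place k L) (M : Subgroup G),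
  PCv p ρ t P → M.Normal → ∃ (θ : L) (T : Finset G), θ ≠ 0 ∧ (∀ m ∈ M, ρ m θ = θ) ∧
    P.ord θ = -So P ρ M ∧ (∀ g : G, ∃! s : G, s ∈ T ∧ s⁻¹ * g ∈ M) ∧ ∑ s ∈ T, ρ s θ = 1

/-- AVG: `F₀ = ∑_{s ∈ T} s (θ F)`, `F₀ - F = ∑ s(θ) (s F - F)` -/
def S_AVG : Prop := ∀ (p : ℕ) (k L G : Type) [Field k] [IsAlgClosed k] [Field L] [Algebra k L]
  [Group G] [Fintype G] (ρ : G →* (L ≃ₐ[k] L)) (t : L) (P : Place k L) (M : Subgroup G) (F : L)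
  (B : ℤ), PCv p ρ t P → M.Normal → (∀ m ∈ M, ρ m F = F) → (∀ g : G, P.Ge (ρ g F - F) B) →
  ∃ F₀ ∈ IntermediateField.adjoin k {t}, P.Ge (F - F₀) (B - So P ρ M)

/-- CHY: `y` for a character of `M` with kernel `B`.  `L^B` over `L^M` is cyclic of degree `p`: some `y₀` with `a y₀ = y₀ + χ a` (additive Hilbert 90).  `ord y < 0` for all `y` in
`y₀ + L^M` (`a y - y` is a nonzero constant, and `ord (a y - y) > ord y`), so take `ord y` maximal; if `ord y / |B|` is divisible by `p` there is `w` in `L^M` with `ord (y - w) > ord y` (`RMX`, residue); then `HBX` -/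
def S_CHY : Prop := ∀ (p : ℕ) (k L G : Type) [Field k] [IsAlgClosed k] [CharP k p] [Field L]
  [Algebra k L] [Group G] [Fintype G] (ρ : G →* (L ≃ₐ[k] L)) (t : L) (P : Place k L)
  (M B : Subgroup G) (χ : G → ZMod p), PCv p ρ t P → M.Normal → B.Normal → B ≤ M →
  (∀ a ∈ M, ∀ b ∈ M, χ (a * b) = χ a + χ b) → (∀ a ∈ M, χ a = 0 ↔ a ∈ B) →
  (∃ a ∈ M, χ a ≠ 0) → ∃ (y : L) (u : ℕ), (∀ b ∈ B, ρ b y = y) ∧
    (∀ a ∈ M, ρ a y = y + algebraMap k L (fp k (χ a))) ∧ P.ord y = -((Nat.card B * u : ℕ) : ℤ) ∧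
    ¬ p ∣ u ∧ 1 ≤ u ∧
    ∀ g ∈ M, g ∉ B → sm (fun g => P.b (ρ g)) {x | g⁻¹ * x ∈ B} = Nat.card B * u

/-- LBZ: `Y₀` from `CHY` (`M = ⟨z⟩`, `B = 1`), `w = Y - Y₀` in `L^z`; `DVV` for `⟨z⟩` and `⊥`, `S(1) = S(⟨z⟩) + (p - 1) b(z)` -/
def S_LBZ : Prop := ∀ (p : ℕ) (k L G : Type) [Field k] [IsAlgClosed k] [Field L] [Algebra k L]
  [Group G] [Fintype G] (ρ : G →* (L ≃ₐ[k] L)) (t : L) (P : Place k L) (Δ : L → L) (z : G)
  (Y : L) (m : ℤ), PCv p ρ t P → DD k t Δ → (∀ (g : G) (x : L), Δ (ρ g x) = ρ g (Δ x)) →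
  orderOf z = p → (∀ g : G, g * z = z * g) → ρ z Y = Y + 1 → m ≤ 0 → P.Ge Y m →
  P.Ge (Δ Y) (min (-(p * P.b (ρ z) + So P ρ (Subgroup.zpowers z)))
    (m - So P ρ (Subgroup.zpowers z)))

/-- ITG: `Y` with `z Y = Y + 1`, `ord Y = - b(z)` prime to `p` (`CHY`), `ord (Δ Y) = - (p b(z) + S(⟨z⟩))` (`DVV`); for `g` in `G`: `h = g Y - Y` in `L^z`, `ord h ≥ - b(z)`,
`g (Δ Y) - Δ Y = Δ h`; `AVG` for `M = ⟨z⟩`: `F₀` in `k(t)` with `ord F₀ = ord (Δ Y)`, which is divisible by `|G|` (`DKK`) -/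
def S_ITG : Prop := ∀ (p : ℕ) (k L G : Type) [Field k] [IsAlgClosed k] [Field L] [Algebra k L]
  [Group G] [Fintype G] (ρ : G →* (L ≃ₐ[k] L)) (t : L) (P : Place k L) (z : G), PCv p ρ t P →
  p ≠ 2 → orderOf z = p → (∀ g : G, g * z = z * g) →
  ((p : ℤ) - 1) * So P ρ (Subgroup.zpowers z) ≤ p * P.b (ρ z) →
  ∃ n : ℤ, (Nat.card G : ℤ) * n = p * P.b (ρ z) + So P ρ (Subgroup.zpowers z)

/-! ## The polynomial `wc` -/

/-- WCA: first part: both sides are `(1 / p)` times integer polynomials, or: `p wc(a, b) = a ^ p + b ^ p - (a + b) ^ p` over `ℤ`.  Last part: telescoping -/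
def S_WCA : Prop := ∀ (p : ℕ) (L : Type) [Field L] [CharP L p], p.Prime →
  (∀ y : L, wc p (y + 1) (y ^ p - y) - wc p y (y ^ p - y) = (wc p y 1) ^ p - wc p y 1) ∧
  (∀ y : L, ∑ l ∈ range p, wc p (y + (l : L)) 1 = 1) ∧
  ∀ Δ : L → L, (∀ x y : L, Δ (x + y) = Δ x + Δ y) → (∀ x y : L, Δ (x * y) = x * Δ y + y * Δ x) →
    ∀ a b : L, Δ (wc p a b) =
      a ^ (p - 1) * Δ a + b ^ (p - 1) * Δ b - (a + b) ^ (p - 1) * (Δ a + Δ b)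

/-- WCO: the terms `y ^ i τ ^ (p - i)`, `1 ≤ i < p`, `ord τ = p ord y` -/
def S_WCO : Prop := ∀ (p : ℕ) (k L : Type) [Field k] [Field L] [Algebra k L] (P : Place k L)
  (y : L), p.Prime → CharP k p → y ≠ 0 → P.ord y < 0 →
  P.Ge (wc p y (y ^ p - y)) (((p : ℤ) - 1) * p * P.ord y + P.ord y)

/-- POI: by induction on `m`: the last `σ` has order `p`, `θ = - y ^ (p - 1)` has trace `1`, so there is `w₁` with `σ w₁ - w₁ = κ` (additive Hilbert 90); subtract `σ_i w₁ - w₁`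
from the `κ_i`, and go on in the fixed field of `σ` -/
def S_POI : Prop := ∀ (p m : ℕ) (E : Type) [Field E] [CharP E p] (σ : Fin m → (E ≃+* E))
  (y κ : Fin m → E), p.Prime → (∀ (i j : Fin m) (x : E), σ i (σ j x) = σ j (σ i x)) →
  (∀ (i : Fin m) (x : E), (σ i)^[p] x = x) →
  (∀ i j : Fin m, σ i (y j) = y j + if i = j then 1 else 0) →
  (∀ i : Fin m, ∑ l ∈ range p, (σ i)^[l] (κ i) = 0) →
  (∀ i j : Fin m, σ j (κ i) - κ i = σ i (κ j) - κ j) → ∃ w : E, ∀ i, σ i w - w = κ i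

/-! ## The main lemma: `z` central of order `p`, `N / ⟨z⟩` elementary abelian and central in `G / ⟨z⟩`, `x ^ p = z` -/

/-- hypotheses of the main lemma; `C₁ = |G|` times the conductor of the quotient by `⟨z⟩` -/
structure MLH (p : ℕ) {k L G : Type} [Field k] [Field L] [Algebra k L] [Group G] [Fintype G]
    (ρ : G →* (L ≃ₐ[k] L)) (t : L) (P : Place k L) (z x : G) (N : Subgroup G) (C₁ : ℤ) :
    Prop where
  cv : PCv p ρ t P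
  odd : p ≠ 2
  oz : orderOf z = p
  cen : ∀ g : G, g * z = z * g
  nor : N.Normal
  zN : z ∈ N
  xN : x ∈ N
  xz : x ^ p = z
  pow : ∀ a ∈ N, a ^ p ∈ Subgroup.zpowers z
  com : ∀ g : G, ∀ a ∈ N, g * a * g⁻¹ * a⁻¹ ∈ Subgroup.zpowers z
  le : ∀ g : G, g ∉ Subgroup.zpowers z → sm (fun g => P.b (ρ g))
    {y | g⁻¹ * y ∈ Subgroup.zpowers z} + So P ρ (Subgroup.zpowers z) ≤ C₁
  eq : sm (fun g => P.b (ρ g)) {y | x⁻¹ * y ∈ Subgroup.zpowers z} +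
    So P ρ (Subgroup.zpowers z) = C₁
  gap : p * So P ρ N ≤ C₁

/-- generators of `N` modulo `⟨z⟩` and functions; `U = C₁ - S(N)` -/
structure YID (p d : ℕ) {k L G : Type} [Field k] [Field L] [Algebra k L] [Group G] [Fintype G]
    (ρ : G →* (L ≃ₐ[k] L)) (P : Place k L) (Δ : L → L) (z x : G) (N : Subgroup G) (C₁ : ℤ)
    (n : Fin (d + 1) → G) (y : Fin (d + 1) → L) (u : ℤ) : Prop where
  mem : ∀ i, n i ∈ N
  n0 : n 0 = x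
  np : ∀ i, i ≠ 0 → (n i) ^ p = 1
  gen : ∀ v : L, ρ z v = v → (∀ i, ρ (n i) v = v) → ∀ a ∈ N, ρ a v = v
  zy : ∀ i, ρ z (y i) = y i
  ny : ∀ i j, ρ (n i) (y j) = y j + if i = j then 1 else 0
  yne : ∀ i, y i ≠ 0
  yneg : ∀ i, P.ord (y i) < 0
  u1 : 1 ≤ u
  nu : (Nat.card N : ℤ) * u = C₁ - So P ρ N
  pu : ¬ (p : ℤ) ∣ u
  ord0 : (p : ℤ) * P.ord (y 0) = -((Nat.card N : ℤ) * u)
  ordi : ∀ i, -((Nat.card N : ℤ) * u) ≤ (p : ℤ) * P.ord (y i)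
  dy0 : Δ (y 0) ≠ 0 ∧ P.ord (Δ (y 0)) = -C₁
  dyi : ∀ i, P.Ge (Δ (y i)) (-C₁)

/-- OBS: group theory: coordinates on `N / ⟨z⟩`; `χ_0` is defined by `a ^ p = z ^ (χ_0 a)`, a homomorphism as `p` is odd and commutators are in `⟨z⟩`; the others are independent modulo
`χ_0`, and the `n_i`, `i ≠ 0`, are in the kernel of `χ_0` -/
def S_OBS : Prop := ∀ (p : ℕ) (G : Type) [Group G] [Finite G] (N : Subgroup G) (z x : G),
  p.Prime → p ≠ 2 → orderOf z = p → (∀ g : G, g * z = z * g) → z ∈ N → x ∈ N → x ^ p = z →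
  (∀ a ∈ N, a ^ p ∈ Subgroup.zpowers z) →
  (∀ g ∈ N, ∀ a ∈ N, g * a * g⁻¹ * a⁻¹ ∈ Subgroup.zpowers z) →
  ∃ (d : ℕ) (n : Fin (d + 1) → G) (χ : Fin (d + 1) → G → ZMod p), (∀ i, n i ∈ N) ∧ n 0 = x ∧
    (∀ i, i ≠ 0 → (n i) ^ p = 1) ∧ (∀ i, ∀ a ∈ N, ∀ b ∈ N, χ i (a * b) = χ i a + χ i b) ∧
    (∀ i j, χ j (n i) = if i = j then 1 else 0) ∧ (∀ i, χ i z = 0) ∧
    ∀ a ∈ N, a ∈ Subgroup.closure (insert z (Set.range n))

/-- YIC: comparison of `u` with `C₁`.  `β(g) = ∑ b (g z ^ i)` for `g ∉ ⟨z⟩` is `p` times the number `b` of the quotient by `⟨z⟩` (`QSM`), so ultrametric (`UM`).  For `g ∈ M \ B` with `β(g)`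
maximal: `β(g c) ≤ β(c)` for `c ∈ B \ ⟨z⟩`, so `|B| u ≤ β(g) + S(⟨z⟩) - S(B)`; `S(B) = S(M) + (p - 1) |B| u`.  Equality if `β(g)` is the largest of all -/
def S_YIC : Prop := ∀ (p : ℕ) (k L G : Type) [Field k] [IsAlgClosed k] [Field L] [Algebra k L]
  [Group G] [Fintype G] (ρ : G →* (L ≃ₐ[k] L)) (t : L) (P : Place k L) (z : G)
  (M B : Subgroup G) (u C₁ : ℤ), PCv p ρ t P → orderOf z = p → (∀ g : G, g * z = z * g) →
  M.Normal → B.Normal → B ≤ M → z ∈ B → Nat.card M = p * Nat.card B →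
  (∀ g ∈ M, g ∉ B → sm (fun g => P.b (ρ g)) {x | g⁻¹ * x ∈ B} = Nat.card B * u) →
  (∀ g : G, g ∉ Subgroup.zpowers z → sm (fun g => P.b (ρ g))
    {y | g⁻¹ * y ∈ Subgroup.zpowers z} + So P ρ (Subgroup.zpowers z) ≤ C₁) →
  So P ρ B = So P ρ M + (p - 1) * (Nat.card B * u) ∧ (Nat.card M : ℤ) * u + So P ρ M ≤ C₁ ∧
  ((∃ g ∈ M, g ∉ B ∧ sm (fun g => P.b (ρ g)) {y | g⁻¹ * y ∈ Subgroup.zpowers z} +
    So P ρ (Subgroup.zpowers z) = C₁) → (Nat.card M : ℤ) * u + So P ρ M = C₁)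

/-- YIS: `OBS`, `CHY` for the kernels `B_i` of the `χ_i` on `N`, `DVV` for `B_i`, `YIC` (`M = N`) -/
def S_YIS : Prop := ∀ (p : ℕ) (k L G : Type) [Field k] [IsAlgClosed k] [Field L] [Algebra k L]
  [Group G] [Fintype G] (ρ : G →* (L ≃ₐ[k] L)) (t : L) (P : Place k L) (Δ : L → L) (z x : G)
  (N : Subgroup G) (C₁ : ℤ), MLH p ρ t P z x N C₁ → DD k t Δ →
  (∀ (g : G) (x : L), Δ (ρ g x) = ρ g (Δ x)) →
  ∃ (d : ℕ) (n : Fin (d + 1) → G) (y : Fin (d + 1) → L) (u : ℤ), YID p d ρ P Δ z x N C₁ n y u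

/-- YQQ: some `Y'` with `z Y' = Y' + 1` (additive Hilbert 90), `h_i = n_i Y' - Y'` in `E = L^z`; `n_j n_i Y' - n_i n_j Y' = B_ij` in `F_p`; `H_i = [i = 0] wc(y_0, 1) + ∑_{j > i} B_ij y_j`; `POI` for
`κ_i = h_i - H_i`: `∑_l n_i^l h_i = n_i^p Y' - Y' = [i = 0]`, second part of `WCA`; `Y = Y' - w` -/
def S_YQQ : Prop := ∀ (p d : ℕ) (k L G : Type) [Field k] [IsAlgClosed k] [CharP k p] [Field L]
  [Algebra k L] [Group G] [Fintype G] (ρ : G →* (L ≃ₐ[k] L)) (t : L) (P : Place k L) (Δ : L → L)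
  (z x : G) (N : Subgroup G) (C₁ : ℤ) (n : Fin (d + 1) → G) (y : Fin (d + 1) → L) (u : ℤ),
  MLH p ρ t P z x N C₁ → YID p d ρ P Δ z x N C₁ n y u →
  ∃ (Y : L) (B : Fin (d + 1) → Fin (d + 1) → ZMod p), ρ z Y = Y + 1 ∧ (∀ i j, j ≤ i → B i j = 0) ∧
    ∀ i, ρ (n i) Y = Y + (if i = 0 then wc p (y 0) 1 else 0) +
      ∑ j, algebraMap k L (fp k (B i j)) * y j

/-- RDG: reduction of `g` modulo `w ^ p - w` in `L^N` (`RMX` for elements of order `|N| m`, residues, `k` perfect) -/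
def S_RDG : Prop := ∀ (p : ℕ) (k L G : Type) [Field k] [IsAlgClosed k] [Field L] [Algebra k L]
  [Group G] [Fintype G] (ρ : G →* (L ≃ₐ[k] L)) (t : L) (P : Place k L) (N : Subgroup G) (g : L),
  PCv p ρ t P → (∀ a ∈ N, ρ a g = g) → ∃ w : L, (∀ a ∈ N, ρ a w = w) ∧
    (P.Ge (g - (w ^ p - w)) 0 ∨ (g - (w ^ p - w) ≠ 0 ∧
      ∃ m : ℤ, P.ord (g - (w ^ p - w)) = Nat.card N * m ∧ m < 0 ∧ ¬ (p : ℤ) ∣ m))

/-- the equation of `Y` -/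
structure YEQ (p d : ℕ) {k L G : Type} [Field k] [CharP k p] [Field L] [Algebra k L] [Group G]
    [Fintype G] (ρ : G →* (L ≃ₐ[k] L)) (P : Place k L) (z : G) (N : Subgroup G)
    (y : Fin (d + 1) → L) (Y g₁ : L) (B : Fin (d + 1) → Fin (d + 1) → ZMod p) : Prop where
  zY : ρ z Y = Y + 1
  gN : ∀ a ∈ N, ρ a g₁ = g₁
  eqn : Y ^ p - Y = wc p (y 0) ((y 0) ^ p - y 0) +
    ∑ i, ∑ j, algebraMap k L (fp k (B i j)) * (y i * ((y j) ^ p - y j)) + g₁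
  red : P.Ge g₁ 0 ∨ (g₁ ≠ 0 ∧ ∃ m : ℤ, P.ord g₁ = Nat.card N * m ∧ m < 0 ∧ ¬ (p : ℤ) ∣ m)

/-- YML: `Y` from `YQQ`, `g₁` = the difference, fixed by the `n_i` (first part of `WCA`; `τ_j = y_j ^ p - y_j` is fixed by `N`; `c ^ p = c` for the constants) and by `z`; replace `Y` by `Y - w`, `w` from `RDG` -/
def S_YML : Prop := ∀ (p d : ℕ) (k L G : Type) [Field k] [IsAlgClosed k] [CharP k p] [Field L]
  [Algebra k L] [Group G] [Fintype G] (ρ : G →* (L ≃ₐ[k] L)) (t : L) (P : Place k L) (Δ : L → L)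
  (z x : G) (N : Subgroup G) (C₁ : ℤ) (n : Fin (d + 1) → G) (y : Fin (d + 1) → L) (u : ℤ),
  MLH p ρ t P z x N C₁ → YID p d ρ P Δ z x N C₁ n y u →
  ∃ (Y g₁ : L) (B : Fin (d + 1) → Fin (d + 1) → ZMod p), YEQ p d ρ P z N y Y g₁ B

/-- ME1: `τ = y_0 ^ p - y_0`, `Û = |N| u`, `F = τ ^ (p - 1) Δ τ + Δ g₁`; `p q = max (- ord g₁, p Û)` (`|N|` is divisible by `p`); the two orders differ by `red`, `pu`; `DVV` for `N`.
`ord Y ≥ - q` from `eqn` (`WCO`).  `Δ (Y ^ p - Y) = - Δ Y = F - y_0 ^ (p - 1) Δ τ + ∑ B_ij (y_i Δ τ_j + τ_j Δ y_i)` (`WCA`, `Δ τ_j = - Δ y_j`), so `ord (Δ Y) = ord F = - (p q + S(N))`; `LBZ` with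
`m = - q` (`q + S(⟨z⟩) ≤ q + C₁ = q + Û + S(N) < p q + S(N)`) -/
def S_ME1 : Prop := ∀ (p d : ℕ) (k L G : Type) [Field k] [IsAlgClosed k] [CharP k p] [Field L]
  [Algebra k L] [Group G] [Fintype G] (ρ : G →* (L ≃ₐ[k] L)) (t : L) (P : Place k L) (Δ : L → L)
  (z x : G) (N : Subgroup G) (C₁ : ℤ) (n : Fin (d + 1) → G) (y : Fin (d + 1) → L) (u : ℤ)
  (Y g₁ : L) (B : Fin (d + 1) → Fin (d + 1) → ZMod p), DD k t Δ →
  (∀ (g : G) (x : L), Δ (ρ g x) = ρ g (Δ x)) → MLH p ρ t P z x N C₁ →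
  YID p d ρ P Δ z x N C₁ n y u → YEQ p d ρ P z N y Y g₁ B →
  ∃ q : ℤ, (Nat.card N : ℤ) * u ≤ q ∧ P.Ge Y (-q) ∧
    ((y 0) ^ p - y 0) ^ (p - 1) * Δ ((y 0) ^ p - y 0) + Δ g₁ ≠ 0 ∧
    P.ord (((y 0) ^ p - y 0) ^ (p - 1) * Δ ((y 0) ^ p - y 0) + Δ g₁) = -(p * q + So P ρ N) ∧
    p * q + So P ρ N ≤ p * P.b (ρ z) + So P ρ (Subgroup.zpowers z)

/-- ME2: `g F - F`: `h = g Y - Y` is in `L^z`, `ord h ≥ - q`, `ord (Δ h) ≥ - q - S(⟨z⟩) ≥ - (q + C₁)` (`DVV`); the other terms of `Δ Y` (see `ME1`) have order `≥ - (Û + C₁)` -/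
def S_ME2 : Prop := ∀ (p d : ℕ) (k L G : Type) [Field k] [IsAlgClosed k] [CharP k p] [Field L]
  [Algebra k L] [Group G] [Fintype G] (ρ : G →* (L ≃ₐ[k] L)) (t : L) (P : Place k L) (Δ : L → L)
  (z x : G) (N : Subgroup G) (C₁ : ℤ) (n : Fin (d + 1) → G) (y : Fin (d + 1) → L) (u q : ℤ)
  (Y g₁ : L) (B : Fin (d + 1) → Fin (d + 1) → ZMod p), DD k t Δ →
  (∀ (g : G) (x : L), Δ (ρ g x) = ρ g (Δ x)) → MLH p ρ t P z x N C₁ →
  YID p d ρ P Δ z x N C₁ n y u → YEQ p d ρ P z N y Y g₁ B → (Nat.card N : ℤ) * u ≤ q →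
  P.Ge Y (-q) → ∀ g : G,
    P.Ge (ρ g (((y 0) ^ p - y 0) ^ (p - 1) * Δ ((y 0) ^ p - y 0) + Δ g₁) -
      (((y 0) ^ p - y 0) ^ (p - 1) * Δ ((y 0) ^ p - y 0) + Δ g₁)) (-(q + C₁))

/-- ME3: `AVG` for `N`: `F₀` in `k(t)`, `ord (F - F₀) ≥ - (q + C₁ + s)`, `s = S(N)`.  If `p b(z) + S(⟨z⟩) < p C₁` then `p q < p Û + (p - 1) s`, `C₁ = Û + s`, `Û ≥ (p - 1) s`.  `Λ x = x - Δ^(p-1) x`: `Λ F = (Δ τ) ^ p`
(`DRH`, `DRP`) has order `- p C₁`; `Λ (F - F₀)` has order `≥ - (q + C₁ + p s) > - p C₁` (`DVV` for `N`, `p - 1` times); so `ord (Λ F₀) = - p C₁`, `ord F₀ ≤ - p C₁` (`DKK`); but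
`ord F₀ ≥ min (- (p q + s), - (q + C₁ + s)) > - p C₁` -/
def S_ME3 : Prop := ∀ (p d : ℕ) (k L G : Type) [Field k] [IsAlgClosed k] [CharP k p] [Field L]
  [Algebra k L] [Group G] [Fintype G] (ρ : G →* (L ≃ₐ[k] L)) (t : L) (P : Place k L) (Δ : L → L)
  (z x : G) (N : Subgroup G) (C₁ : ℤ) (n : Fin (d + 1) → G) (y : Fin (d + 1) → L) (u q : ℤ)
  (Y g₁ : L) (B : Fin (d + 1) → Fin (d + 1) → ZMod p), DD k t Δ →
  (∀ (g : G) (x : L), Δ (ρ g x) = ρ g (Δ x)) → MLH p ρ t P z x N C₁ →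
  YID p d ρ P Δ z x N C₁ n y u → YEQ p d ρ P z N y Y g₁ B → (Nat.card N : ℤ) * u ≤ q →
  ((y 0) ^ p - y 0) ^ (p - 1) * Δ ((y 0) ^ p - y 0) + Δ g₁ ≠ 0 →
  P.ord (((y 0) ^ p - y 0) ^ (p - 1) * Δ ((y 0) ^ p - y 0) + Δ g₁) = -(p * q + So P ρ N) →
  p * q + So P ρ N ≤ p * P.b (ρ z) + So P ρ (Subgroup.zpowers z) →
  (∀ g : G, P.Ge (ρ g (((y 0) ^ p - y 0) ^ (p - 1) * Δ ((y 0) ^ p - y 0) + Δ g₁) -
    (((y 0) ^ p - y 0) ^ (p - 1) * Δ ((y 0) ^ p - y 0) + Δ g₁)) (-(q + C₁))) →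
  p * C₁ ≤ p * P.b (ρ z) + So P ρ (Subgroup.zpowers z)

/-- MLA: the main lemma, from `DRV`, `YIS`, `YML`, `ME1`, `ME2`, `ME3` -/
def S_MLA : Prop := ∀ (p : ℕ) (k L G : Type) [Field k] [IsAlgClosed k] [Field L] [Algebra k L]
  [Group G] [Fintype G] (ρ : G →* (L ≃ₐ[k] L)) (t : L) (P : Place k L) (z x : G)
  (N : Subgroup G) (C₁ : ℤ), MLH p ρ t P z x N C₁ →
  p * C₁ ≤ p * P.b (ρ z) + So P ρ (Subgroup.zpowers z)

/-! ## The induction -/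

/-- PCG: if all elements of order `p` are central, `w ^ (p ^ 2) = 1` implies `[w, g] ^ p = 1`.  `R_0 = {x ^ p = 1}`, `R_(i+1) = {w : [w, G] ⊆ R_i, w ^ p ∈ R_i}`, `R_(-1) = 1`; the union is `G`.
Claim: `w ∈ R_i`, `w ^ p ∈ R_(i-2)` imply `w ∈ R_(i-1)`, `i ≥ 1` (`i = 1` is clear).  `i ≥ 2`: for `g ∈ G`, `s = [w, g] ∈ R_(i-1)`, `w s = w ^ g`, `(w s) ^ p = (w ^ p) ^ g = w ^ p` modulo `R_(i-3)`; modulo `R_(i-3)` the
commutator `[w, s] ∈ R_(i-2)` is central of order `p`, so `(w s) ^ p = w ^ p s ^ p`; so `s ^ p ∈ R_(i-3)`, `s ∈ R_(i-2)` by induction; so `w ∈ R_(i-1)`.  (As in `OM1`.)  So `w ∈ R_1` -/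
def S_PCG : Prop := ∀ (p : ℕ) (G : Type) [Group G] [Finite G], p.Prime → p ≠ 2 →
  (∃ n : ℕ, Nat.card G = p ^ n) → (∀ x : G, x ^ p = 1 → x ∈ Subgroup.center G) →
  ∀ w g : G, (w ^ p) ^ p = 1 → (w * g * w⁻¹ * g⁻¹) ^ p = 1

/-- PCQ: `x ^ p ≠ 1` of order `p`: a complement `M` of `⟨x ^ p⟩` in `{a ^ p = 1}` (elementary abelian, central) -/
def S_PCQ : Prop := ∀ (p : ℕ) (G : Type) [Group G] [Finite G] (v : G), p.Prime → p ≠ 2 →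
  (∃ n : ℕ, Nat.card G = p ^ n) → (∀ x : G, x ^ p = 1 → x ∈ Subgroup.center G) → v ^ p = 1 →
  v ≠ 1 → ∃ M : Subgroup G, M.Normal ∧ (∀ m ∈ M, m ^ p = 1) ∧ v ∉ M ∧
    ∀ a : G, a ^ p = 1 → ∃ i : ℕ, a * v ^ i ∈ M

/-- HI1: one step: in `G`, `z = x ^ p` is central of order `p`, `G / ⟨z⟩` has all elements of order `p` central, the image of `x` is in the last group of `G / ⟨z⟩`; `R` is
`{a ^ p ∈ ⟨z⟩}`.  From `MLA` (`N = R`), `C₁` = the left side of the last hypothesis -/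
def S_HI1 : Prop := ∀ (p : ℕ) (k L G : Type) [Field k] [IsAlgClosed k] [Field L] [Algebra k L]
  [Group G] [Fintype G] (ρ : G →* (L ≃ₐ[k] L)) (t : L) (P : Place k L) (z x : G)
  (R : Subgroup G), PCv p ρ t P → p ≠ 2 → orderOf z = p → (∀ g : G, g * z = z * g) → x ^ p = z →
  (∀ a g : G, a ^ p ∈ Subgroup.zpowers z → g * a * g⁻¹ * a⁻¹ ∈ Subgroup.zpowers z) →
  (∀ a : G, a ∈ R ↔ a ^ p ∈ Subgroup.zpowers z) →
  (∀ g : G, g ∉ Subgroup.zpowers z → sm (fun g => P.b (ρ g))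
    {y | g⁻¹ * y ∈ Subgroup.zpowers z} ≤ sm (fun g => P.b (ρ g))
    {y | x⁻¹ * y ∈ Subgroup.zpowers z}) →
  p * So P ρ R ≤ sm (fun g => P.b (ρ g)) {y | x⁻¹ * y ∈ Subgroup.zpowers z} +
    So P ρ (Subgroup.zpowers z) →
  p * (sm (fun g => P.b (ρ g)) {y | x⁻¹ * y ∈ Subgroup.zpowers z} +
    So P ρ (Subgroup.zpowers z)) ≤ p * P.b (ρ z) + So P ρ (Subgroup.zpowers z)

/-- HIN: `Ω = {x ^ p = 1}`; `p S(Ω) ≤ l + S(1)`, `l` the largest `b`.  Induction on `|G|`.  `Ω = G`: clear.  `G₁ = G / Ω` with its cover (`QSM`), all elements of order `p` central (`PCG`); by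
induction `p S(Ω₁) ≤ l₁ + S(1)` in `G₁`.  `x ∈ G` with image of largest `b` in `G₁`, so of order `p` there (`LPO`); `v = x ^ p ∈ Ω`, `v ≠ 1`; `M` from `PCQ`; in `G' = G / M` (`QSM`): `z = v`, `HI1`
(`G' / ⟨z⟩ = G / Ω`; sums over cosets: `QSM` for `M` and `Ω`).  So with `b'` in `G'`: `p S'(⟨z⟩) ≤ p b'(z) + S'(⟨z⟩)`, and `|M| (p b'(z) + S'(⟨z⟩)) ≤ l + S(1)`: `|M| b'(v)` is the sum of the `b (v m)`, `m ∈ M`, the `v ^ i M` have the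
same sums; if `b (v m)` is maximal in `v M` then `b (v m') ≤ b (m⁻¹ m')` for `m' ≠ m` -/
def S_HIN : Prop := ∀ (p : ℕ) (k L G : Type) [Field k] [IsAlgClosed k] [Field L] [Algebra k L]
  [Group G] [Fintype G] (ρ : G →* (L ≃ₐ[k] L)) (t : L) (P : Place k L) (Ω : Subgroup G) (l : ℤ),
  PCv p ρ t P → p ≠ 2 → (∀ x : G, x ^ p = 1 → x ∈ Subgroup.center G) →
  (∀ x : G, x ∈ Ω ↔ x ^ p = 1) → IsLst (fun g => P.b (ρ g)) (⊤ : Subgroup G) l →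
  p * So P ρ Ω ≤ l + So P ρ ⊥

/-- PCZ: the conductor is an integer.  `|G| c = l + S(1)` (`CON`).  `v` with `b v = l`, `v ^ p = 1` (`LPO`), `M` from `PCQ`, `G' = G / M` (`QSM`), `z` the image of `v`: `|M| b'(z) = l + S(1) - S(M)`... (the sum of `b (v m)` is
`l + ∑_{m ≠ 1} b m`, `m ∈ M`), so `|M| (p b'(z) + S'(⟨z⟩)) = l + S(1)`, `|M| S'(⟨z⟩) = S(Ω)`: `HIN` gives the hypothesis of `ITG` -/
def S_PCZ : Prop := ∀ (p : ℕ) (k L G : Type) [Field k] [IsAlgClosed k] [Field L] [Algebra k L]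
  [Group G] [Fintype G] (ρ : G →* (L ≃ₐ[k] L)) (t : L) (P : Place k L) (c : ℚ), PCv p ρ t P →
  p ≠ 2 → (∀ x : G, x ^ p = 1 → x ∈ Subgroup.center G) → IsConductor P ρ c → ∃ n : ℤ, c = n

/-- PCN: `PCZ`, `OM3`, `NGD` -/
def S_PCN : Prop := ∀ (p : ℕ) (k G : Type) [Field k] [IsAlgClosed k] [CharP k p] [Group G]
  [Finite G], p.Prime → p ≠ 2 → (∃ n : ℕ, Nat.card G = p ^ n) →
  ((∀ x : G, x ^ p = 1 → x ∈ Subgroup.center G) → ∀ c ∈ Cond k G, ∃ n : ℤ, c = n) ∧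
  (NG k G = 1 ↔ ∀ x : G, x ^ p = 1 → x ∈ Subgroup.center G)

end Pool.CND
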